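import Mathlib
import Pool.Agent.Work.MP_f6b738_gt.Pos

set_option autoImplicit false

namespace Pool.Agent.Results.MP_f6b738_gt.PlaneProjections

open MeasureTheory Pointwise

/-- Euclidean space of dimension `n`. -/
abbrev E (n : ℕ) : Type := EuclideanSpace ℝ (Fin n)

/-- The volume of the unit ball of the Euclidean space of dimension `m`. -/
noncomputable def kappa (m : ℕ) : ℝ := (volume (Metric.closedBall (0 : E m) 1)).toReal

/-- `V 0, ..., V n` are the intrinsic volumes of the set `K` in the Euclidean space of dimension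
`n`: the Steiner formula. -/
def IntrinsicVolumes (n : ℕ) (K : Set (E n)) (V : ℕ → ℝ) : Prop :=
  ∀ t : ℝ, 0 ≤ t → (volume (K + t • Metric.closedBall (0 : E n) 1)).toReal =
    ∑ j ∈ Finset.range (n + 1), kappa (n - j) * V j * t ^ (n - j)

/-- The `i`-th intrinsic volume of `K` is `v` (`i ≤ n`). -/
def IsV (n i : ℕ) (K : Set (E n)) (v : ℝ) : Prop := ∃ V : ℕ → ℝ, IntrinsicVolumes n K V ∧ V i = v

/-- The orthogonal projection of `K` onto the subspace `S`. -/
def proj {n : ℕ} (S : Submodule ℝ (E n)) (K : Set (E n)) : Set (E n) := S.starProjection '' K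

/-- Convex body: compact, convex, with nonempty interior. -/
def IsBody {n : ℕ} (K : Set (E n)) : Prop := IsCompact K ∧ Convex ℝ K ∧ (interior K).Nonempty

private theorem kappa_pos (m : ℕ) : 0 < kappa m := by
  unfold kappa
  exact ENNReal.toReal_pos (Metric.measure_closedBall_pos volume _ one_pos).ne'
    measure_closedBall_lt_top.ne

private theorem iv_of_sum (d N : ℕ) (hN : N + d = 5) (K : Set (E 4)) (b : ℕ → ℝ)
    (hb : ∀ ε : ℝ, 0 ≤ ε → (volume (K + Metric.closedBall (0 : E 4) ε)).toReal =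
      ∑ k ∈ Finset.range N, b k * ε ^ (k + d)) :
    IntrinsicVolumes 4 K (fun j => (if j < N then b (N - 1 - j) else 0) / kappa (4 - j)) := by
  intro t ht
  rw [smul_unitClosedBall_of_nonneg ht, hb t ht]
  have h1 : ∀ j, kappa (4 - j) * ((if j < N then b (N - 1 - j) else 0) / kappa (4 - j)) =
      (if j < N then b (N - 1 - j) else 0) := fun j => mul_div_cancel₀ _ (kappa_pos _).ne'
  simp only [h1]
  have hN5 : N ≤ 5 := by omega
  rw [← Finset.sum_subset (Finset.range_mono hN5) (fun j _ hj => by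
    rw [Finset.mem_range] at hj
    rw [if_neg hj, zero_mul])]
  rw [← Finset.sum_range_reflect]
  refine Finset.sum_congr rfl fun j hj => ?_
  rw [Finset.mem_range] at hj
  rw [if_pos hj]
  congr 2
  omega

/-- In dimension 4 there are convex bodies `K₁`, `K₂` whose projections onto all hyperplanes have
the same intrinsic volume `V₂`, while the projections onto some plane have different `V₂`. -/
theorem result : ∃ K₁ K₂ : Set (E 4), IsBody K₁ ∧ IsBody K₂ ∧
    (∀ u : E 4, ‖u‖ = 1 → ∃ v : ℝ, IsV 4 2 (proj (Submodule.span ℝ {u})ᗮ K₁) v ∧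
      IsV 4 2 (proj (Submodule.span ℝ {u})ᗮ K₂) v) ∧
    ∃ S : Submodule ℝ (E 4), Module.finrank ℝ S = 2 ∧
      ∃ v w : ℝ, IsV 4 2 (proj S K₁) v ∧ IsV 4 2 (proj S K₂) w ∧ v < w := by
  obtain ⟨K₁, K₂, h1, h2, h3, S, hS, b, b', hb, hb', hlt⟩ :=
    Pool.MP_f6b738_gt.IV.positive_counterexample
  refine ⟨K₁, K₂, h1, h2, fun u hu => ?_, S, hS, ?_⟩
  · obtain ⟨c, c', hc, hc', he⟩ := h3 u (by simpa using hu)
    refine ⟨c 1 / kappa 2, ⟨_, iv_of_sum 1 4 rfl _ c hc, rfl⟩,
      ⟨_, iv_of_sum 1 4 rfl _ c' hc', ?_⟩⟩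
    change c' 1 / kappa 2 = c 1 / kappa 2
    rw [he]
  · exact ⟨b 0 / kappa 2, b' 0 / kappa 2, ⟨_, iv_of_sum 2 3 rfl _ b hb, rfl⟩,
      ⟨_, iv_of_sum 2 3 rfl _ b' hb', rfl⟩, div_lt_div_of_pos_right hlt (kappa_pos 2)⟩

end Pool.Agent.Results.MP_f6b738_gt.PlaneProjections
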